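import Pool.Agent.Helper484.HBA.Defs

set_option autoImplicit false

namespace Pool.Agent.Helper484.HBA

--@ cinj
theorem cinj : (∀ m k : ℕ, gc⁻¹ ^ m = gc⁻¹ ^ k → m = k) ∧ (∀ m : ℕ, gc ≠ gc⁻¹ ^ m) ∧
    ∀ w : V, ¬ NN w → ¬ NN (gc * w) ∧ gc⁻¹ * w ≠ 1 ∧ (∀ m : ℕ, gc⁻¹ * w ≠ gc⁻¹ ^ m) ∧
      ¬ NN (w * gc) := by
  sorry

--@ sigeq
theorem sigeq : sig [] = [1] ∧ (∀ (m : ℕ) (l : List V), sig (gc⁻¹ ^ m :: l) = tau m l) ∧
    (∀ l : List V, sig (1 :: l) = l) ∧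
    (∀ l : List V, sig (gc :: l) = sm gc⁻¹ (sig (sm gc⁻¹ l))) ∧
    (∀ (v : V) (l : List V), ¬ NN v → sig (v :: l) = 1 :: v :: l) ∧
    (∀ l : List V, WW l → sig l = 1 :: l) := by
  sorry

--@ smlem
theorem smlem : (∀ l : List V, sm 1 l = l) ∧ (∀ (v w : V) (l : List V), sm v (sm w l) = sm (v * w) l) ∧
    (∀ (v : V) (l : List V), Ok l → Ok (sm v l)) ∧ (∀ l : List V, WW l → WW (sm gc l)) ∧
    (∀ (l : List V) (m : ℕ), WW l → WW (sm gc (tau m l))) ∧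
    (∀ (v : V) (l : List V), Ok (v :: l) ↔ WW l) := by
  sorry

--@ sigok
theorem sigok (l : List V) (h : Ok l) : Ok (sig l) := by
  sorry

--@ sigsig
theorem sigsig (l : List V) (h : Ok l) : sig (sig l) = l := by
  sorry

--@ sigrel
theorem sigrel (l : List V) (h : Ok l) :
    sig (sm gc (sig l)) = sm gc⁻¹ (sig (sm gc⁻¹ l)) := by
  sorry

--@ rstep
theorem rstep (l y : List V) (hl : WW l) (h : RR l y) : RR (1 :: l) (sig y) := by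
  sorry

--@ rsm
theorem rsm (v : V) (l y : List V) (h : RR l y) (h1 : l ≠ []) : RR (sm v l) (sm v y) := by
  sorry

--@ selt
theorem selt {G : Type} [Group G] (ι : V →* G) (s : G) (hs : s * s = 1)
    (hc : s * ι gc * s = ι gc⁻¹ * s * ι gc⁻¹) :
    (∀ (w : V) (l : List V), ∃ v : V, ι w * elt ι s l = elt ι s (sm w l) * ι v) ∧
    (∀ l : List V, ∃ v : V, s * elt ι s l = elt ι s (sig l) * ι v) := by
  sorry

--@ inst0
theorem inst0 : ∃ (G : Type) (_ : Group G) (ι : V →* G) (s : G) (nf : G → List V),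
    Function.Injective ι ∧ s * s = 1 ∧ s * ι gc * s = ι gc⁻¹ * s * ι gc⁻¹ ∧
    Subgroup.closure (Set.range ι ∪ {s}) = ⊤ ∧ nf 1 = [] ∧ (∀ g, Ok (nf g)) ∧
    (∀ (v : V) (g : G), nf (ι v * g) = sm v (nf g)) ∧ (∀ g : G, nf (s * g) = sig (nf g)) ∧
    (∀ (v : V) (g : G), nf (g * ι v) = nf g) := by
  sorry

--@ inst1
theorem inst1 {G : Type} [Group G] (ι : V →* G) (s : G) (nf : G → List V)
    (hs : s * s = 1) (hc : s * ι gc * s = ι gc⁻¹ * s * ι gc⁻¹)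
    (hgen : Subgroup.closure (Set.range ι ∪ {s}) = ⊤) (h1 : nf 1 = []) (hok : ∀ g, Ok (nf g))
    (hv : ∀ (v : V) (g : G), nf (ι v * g) = sm v (nf g)) (hsg : ∀ g : G, nf (s * g) = sig (nf g))
    (hr : ∀ (v : V) (g : G), nf (g * ι v) = nf g) :
    (∀ g : G, ∃ v : V, g = elt ι s (nf g) * ι v) ∧ (∀ g : G, nf g = [] ↔ g ∈ ι.range) ∧
      ∀ g : G, RR (nf g) (nf (g * s)) := by
  sorry

end Pool.Agent.Helper484.HBA
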