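import Mathlib

set_option autoImplicit false

namespace Pool.Agent.Helper484.HBA

/-- the vertex group F(a,c) x Z -/
abbrev V : Type := FreeGroup Bool × Multiplicative ℤ

/-- the generator c -/
def gc : V := (FreeGroup.of true, 1)

/-- the powers `c ^ j` with `j ≤ 1` -/
def NN (v : V) : Prop := v = gc ∨ ∃ m : ℕ, v = gc⁻¹ ^ m

/-- all entries are not in `NN` -/
def WW (l : List V) : Prop := ∀ x ∈ l, ¬ NN x

/-- all entries but the first one are not in `NN` -/
def Ok (l : List V) : Prop := ∀ x ∈ l.tail, ¬ NN x

/-- multiply the first entry by `v` -/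
def sm (v : V) : List V → List V
  | [] => []
  | w :: l => (v * w) :: l

theorem sm_length (v : V) (l : List V) : (sm v l).length = l.length := by
  cases l <;> simp [sm]

/-- `tau m l` is the list of `s c^(-m) s l` -/
def tau : ℕ → List V → List V
  | 0, l => l
  | m + 1, l => gc :: sm gc (tau m l)

open Classical in
/-- the action of `s` on lists -/
noncomputable def sig : List V → List V
  | [] => [1]
  | v :: l =>
    if h : ∃ m : ℕ, v = gc⁻¹ ^ m then tau h.choose l
    else if v = gc then sm gc⁻¹ (sig (sm gc⁻¹ l))
    else 1 :: v :: l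
  termination_by l => l.length
  decreasing_by simp [sm_length]

/-- adjacency of lists -/
def AA (l l' : List V) : Prop := ∃ v : V, l' = l ++ [v]

/-- adjacency of lists, second kind -/
def BB (l l' : List V) : Prop :=
  ∃ (L : List V) (u : V) (k : ℕ), l = L ++ [u] ∧ l' = L ++ [u * gc] ++ List.replicate k (gc * gc)

/-- adjacency of lists -/
def RR (l l' : List V) : Prop := AA l l' ∨ AA l' l ∨ BB l l' ∨ BB l' l

/-- the element of the group of a list -/
def elt {G : Type} [Group G] (ι : V →* G) (s : G) : List V → G
  | [] => 1
  | v :: l => ι v * s * elt ι s l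

/-- the set of normal forms -/
def Om : Type := {l : List V // Ok l}

end Pool.Agent.Helper484.HBA
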