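import Pool.Agent.Helper484.HBA.Defs

set_option autoImplicit false

namespace Pool.Agent.Helper484.HBA



/-- exponent of `c` -/
noncomputable def cexp : V →* Multiplicative ℤ :=
  (FreeGroup.lift (fun b : Bool => if b then Multiplicative.ofAdd (1 : ℤ) else 1)).comp
    (MonoidHom.fst _ _)

theorem cexp_gc : cexp gc = Multiplicative.ofAdd (1 : ℤ) := by
  simp [cexp, gc]

theorem cexp_pow (m : ℕ) : Multiplicative.toAdd (cexp (gc⁻¹ ^ m)) = -(m : ℤ) := by
  rw [map_pow, map_inv, cexp_gc]
  simp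

theorem cinj : (∀ m k : ℕ, gc⁻¹ ^ m = gc⁻¹ ^ k → m = k) ∧ (∀ m : ℕ, gc ≠ gc⁻¹ ^ m) ∧
    ∀ w : V, ¬ NN w → ¬ NN (gc * w) ∧ gc⁻¹ * w ≠ 1 ∧ (∀ m : ℕ, gc⁻¹ * w ≠ gc⁻¹ ^ m) ∧
      ¬ NN (w * gc) := by
  refine ⟨?_, ?_, ?_⟩
  · intro m k h
    have h1 := cexp_pow m
    have h2 := cexp_pow k
    rw [h] at h1
    omega
  · intro m h
    have h1 := cexp_pow m
    rw [← h, cexp_gc] at h1
    simp at h1
    omega
  · intro w hw
    refine ⟨?_, ?_, ?_, ?_⟩
    · rintro (h | ⟨m, h⟩)
      · apply hw
        right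
        refine ⟨0, ?_⟩
        rw [pow_zero]
        exact mul_eq_left.1 h
      · apply hw
        right
        refine ⟨m + 1, ?_⟩
        rw [pow_succ', ← h, inv_mul_cancel_left]
    · intro h
      apply hw
      left
      exact (inv_mul_eq_one.1 h).symm
    · intro m h
      apply hw
      rcases m with _ | m
      · left
        rw [pow_zero] at h
        exact (inv_mul_eq_one.1 h).symm
      · right
        refine ⟨m, ?_⟩
        rw [pow_succ'] at h
        exact mul_left_cancel h
    · rintro (h | ⟨m, h⟩)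
      · apply hw
        right
        refine ⟨0, ?_⟩
        rw [pow_zero]
        exact mul_eq_right.1 h
      · apply hw
        right
        refine ⟨m + 1, ?_⟩
        rw [pow_succ, ← h, mul_inv_cancel_right]

end Pool.Agent.Helper484.HBA
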