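import Pool.Agent.Helper484.HBA.Defs
import Pool.Agent.Helper484.HBA.P_cinj

set_option autoImplicit false

namespace Pool.Agent.Helper484.HBA



theorem sigeq : sig [] = [1] ∧ (∀ (m : ℕ) (l : List V), sig (gc⁻¹ ^ m :: l) = tau m l) ∧
    (∀ l : List V, sig (1 :: l) = l) ∧
    (∀ l : List V, sig (gc :: l) = sm gc⁻¹ (sig (sm gc⁻¹ l))) ∧
    (∀ (v : V) (l : List V), ¬ NN v → sig (v :: l) = 1 :: v :: l) ∧
    (∀ l : List V, WW l → sig l = 1 :: l) := by
  have h0 : sig [] = [1] := by rw [sig]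
  have h1 : ∀ (m : ℕ) (l : List V), sig (gc⁻¹ ^ m :: l) = tau m l := by
    intro m l
    rw [sig]
    have h : ∃ k : ℕ, gc⁻¹ ^ m = gc⁻¹ ^ k := ⟨m, rfl⟩
    rw [dif_pos h]
    have := cinj.1 _ _ h.choose_spec
    rw [← this]
  have h2 : ∀ l : List V, sig (1 :: l) = l := by
    intro l
    have := h1 0 l
    rw [pow_zero] at this
    rw [this]; rfl
  have h3 : ∀ l : List V, sig (gc :: l) = sm gc⁻¹ (sig (sm gc⁻¹ l)) := by
    intro l
    rw [sig]
    have h : ¬ ∃ m : ℕ, gc = gc⁻¹ ^ m := by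
      rintro ⟨m, hm⟩; exact cinj.2.1 m hm
    rw [dif_neg h, if_pos rfl]
  have h4 : ∀ (v : V) (l : List V), ¬ NN v → sig (v :: l) = 1 :: v :: l := by
    intro v l hv
    rw [sig]
    have h : ¬ ∃ m : ℕ, v = gc⁻¹ ^ m := fun h => hv (Or.inr h)
    have h' : ¬ v = gc := fun h => hv (Or.inl h)
    rw [dif_neg h, if_neg h']
  refine ⟨h0, h1, h2, h3, h4, ?_⟩
  intro l hl
  cases l with
  | nil => exact h0
  | cons v l => exact h4 v l (hl v (by simp))

end Pool.Agent.Helper484.HBA
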