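import Pool.Agent.Helper484.HBA.Defs
import Pool.Agent.Helper484.HBA.P_cinj

set_option autoImplicit false

namespace Pool.Agent.Helper484.HBA



theorem smlem_gg : ¬ NN (gc * gc) := by
  obtain ⟨h1, h2, h3⟩ := cinj
  rintro (h | ⟨m, hm⟩)
  · have : gc = 1 := mul_eq_left.1 h
    exact h2 0 (by rw [pow_zero]; exact this)
  · refine h2 (m + 1) ?_
    rw [pow_succ', ← hm, inv_mul_cancel_left]

theorem smlem_ww (l : List V) (h : WW l) : WW (sm gc l) := by
  cases l with
  | nil => exact h
  | cons w l =>
    intro x hx
    rcases List.mem_cons.1 hx with e | e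
    · rw [e]
      exact (cinj.2.2 w (h w List.mem_cons_self)).1
    · exact h x (List.mem_cons_of_mem _ e)

theorem smlem : (∀ l : List V, sm 1 l = l) ∧ (∀ (v w : V) (l : List V), sm v (sm w l) = sm (v * w) l) ∧
    (∀ (v : V) (l : List V), Ok l → Ok (sm v l)) ∧ (∀ l : List V, WW l → WW (sm gc l)) ∧
    (∀ (l : List V) (m : ℕ), WW l → WW (sm gc (tau m l))) ∧
    (∀ (v : V) (l : List V), Ok (v :: l) ↔ WW l) := by
  refine ⟨?_, ?_, ?_, smlem_ww, ?_, ?_⟩
  · intro l
    cases l with
    | nil => rfl
    | cons w l => simp only [sm, one_mul]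
  · intro v w l
    cases l with
    | nil => rfl
    | cons u l => simp only [sm, mul_assoc]
  · intro v l h
    cases l with
    | nil => exact h
    | cons w l => exact h
  · intro l m h
    induction m with
    | zero => exact smlem_ww l h
    | succ m ih =>
      intro x hx
      rcases List.mem_cons.1 hx with e | e
      · rw [e]; exact smlem_gg
      · exact ih x e
  · intro v l
    exact Iff.rfl

end Pool.Agent.Helper484.HBA
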