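import Pool.Agent.Helper484.HBA.Defs
import Pool.Agent.Helper484.HBA.P_cinj
import Pool.Agent.Helper484.HBA.P_sigeq
import Pool.Agent.Helper484.HBA.P_smlem

set_option autoImplicit false

namespace Pool.Agent.Helper484.HBA



theorem sigok_aux (n : ℕ) : ∀ l : List V, l.length ≤ n → Ok l → Ok (sig l) := by
  obtain ⟨e0, e1, e2, e3, e4, e5⟩ := sigeq
  obtain ⟨s1, s2, s3, s4, s5, s6⟩ := smlem
  induction n with
  | zero =>
    intro l hl _
    have : l = [] := List.eq_nil_of_length_eq_zero (by omega)
    rw [this, e0]
    intro x hx
    simp at hx
  | succ n ih =>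
    intro l hl h
    cases l with
    | nil =>
      rw [e0]; intro x hx; simp at hx
    | cons v r =>
      have hr : WW r := (s6 v r).1 h
      by_cases h1 : ∃ m : ℕ, v = gc⁻¹ ^ m
      · obtain ⟨m, rfl⟩ := h1
        rw [e1]
        cases m with
        | zero => exact fun x hx => hr x (List.mem_of_mem_tail hx)
        | succ m =>
          show Ok (gc :: sm gc (tau m r))
          exact (s6 _ _).2 (s5 r m hr)
      · by_cases h2 : v = gc
        · rw [h2, e3]
          apply s3
          apply ih
          · rw [sm_length]; simp at hl; exact hl
          · exact s3 _ _ (fun x hx => hr x (List.mem_of_mem_tail hx))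
        · have hv : ¬ NN v := by
            rintro (h3 | h3)
            · exact h2 h3
            · exact h1 h3
          rw [e4 v r hv]
          apply (s6 _ _).2
          intro x hx
          rcases List.mem_cons.1 hx with h3 | h3
          · rw [h3]; exact hv
          · exact hr x h3

theorem sigok (l : List V) (h : Ok l) : Ok (sig l) := by
  exact sigok_aux l.length l le_rfl h

end Pool.Agent.Helper484.HBA
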