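import Pool.Agent.Helper484.HBA.Defs
import Pool.Agent.Helper484.HBA.P_cinj
import Pool.Agent.Helper484.HBA.P_sigeq
import Pool.Agent.Helper484.HBA.P_smlem

set_option autoImplicit false

namespace Pool.Agent.Helper484.HBA



theorem ss_tau (m : ℕ) (r : List V) (hr : WW r) : sig (tau m r) = gc⁻¹ ^ m :: r := by
  induction m with
  | zero =>
    rw [pow_zero]
    exact sigeq.2.2.2.2.2 r hr
  | succ m ih =>
    show sig (gc :: sm gc (tau m r)) = _
    rw [sigeq.2.2.2.1, smlem.2.1, inv_mul_cancel, smlem.1, ih]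
    show (gc⁻¹ * gc⁻¹ ^ m) :: r = _
    rw [pow_succ']

theorem ss_claim (r : List V) (hr : WW r) : ∃ (k : ℕ) (l2 : List V), WW l2 ∧
    sig (sm gc⁻¹ r) = gc⁻¹ ^ k :: l2 ∧ tau k l2 = sm gc⁻¹ r := by
  induction r with
  | nil =>
    refine ⟨0, [], hr, ?_, rfl⟩
    show sig [] = _
    rw [sigeq.1, pow_zero]
  | cons w r' ih =>
    have hw : ¬ NN w := hr w (by simp)
    have hr' : WW r' := fun x hx => hr x (by simp [hx])
    obtain ⟨k, l2, h1, h2, h3⟩ := ih hr'
    obtain ⟨-, hc1, hc2, -⟩ := cinj.2.2 w hw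
    by_cases hg : gc⁻¹ * w = gc
    · refine ⟨k + 1, l2, h1, ?_, ?_⟩
      · show sig ((gc⁻¹ * w) :: r') = _
        rw [hg, sigeq.2.2.2.1, h2]
        show (gc⁻¹ * gc⁻¹ ^ k) :: l2 = _
        rw [pow_succ']
      · show gc :: sm gc (tau k l2) = (gc⁻¹ * w) :: r'
        rw [hg, h3, smlem.2.1, mul_inv_cancel, smlem.1]
    · have hn : ¬ NN (gc⁻¹ * w) := by
        rintro (h | ⟨m, h⟩)
        · exact hg h
        · exact hc2 m h
      refine ⟨0, (gc⁻¹ * w) :: r', ?_, ?_, rfl⟩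
      · intro x hx
        rcases List.mem_cons.1 hx with h | h
        · rw [h]; exact hn
        · exact hr' x h
      · show sig ((gc⁻¹ * w) :: r') = _
        rw [sigeq.2.2.2.2.1 _ _ hn, pow_zero]

theorem sigsig (l : List V) (h : Ok l) : sig (sig l) = l := by
  cases l with
  | nil => rw [sigeq.1, sigeq.2.2.1]
  | cons v r =>
    have hr : WW r := (smlem.2.2.2.2.2 v r).1 h
    by_cases hn : NN v
    · rcases hn with h1 | ⟨m, h1⟩
      · obtain ⟨k, l2, h2, h3, h4⟩ := ss_claim r hr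
        rw [h1, sigeq.2.2.2.1, h3]
        show sig ((gc⁻¹ * gc⁻¹ ^ k) :: l2) = _
        rw [← pow_succ', sigeq.2.1]
        show gc :: sm gc (tau k l2) = gc :: r
        rw [h4, smlem.2.1, mul_inv_cancel, smlem.1]
      · rw [h1, sigeq.2.1, ss_tau m r hr]
    · rw [sigeq.2.2.2.2.1 _ _ hn, sigeq.2.2.1]

end Pool.Agent.Helper484.HBA
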