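import Pool.Agent.Helper484.HBA.Defs
import Pool.Agent.Helper484.HBA.P_sigeq
import Pool.Agent.Helper484.HBA.P_smlem
import Pool.Agent.Helper484.HBA.P_sigsig

set_option autoImplicit false

namespace Pool.Agent.Helper484.HBA



theorem sigrel (l : List V) (h : Ok l) :
    sig (sm gc (sig l)) = sm gc⁻¹ (sig (sm gc⁻¹ l)) := by
  obtain ⟨e1, e2, e3, e4, e5, e6⟩ := sigeq
  obtain ⟨s1, s2, s3, s4, s5, s6⟩ := smlem
  cases l with
  | nil =>
    have h1 : sm gc [(1 : V)] = [gc] := by simp [sm]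
    rw [e1, h1, e4]
  | cons v r =>
    have hr : WW r := (s6 v r).1 h
    have hOr : Ok r := fun x hx => hr x (List.mem_of_mem_tail hx)
    by_cases hv : NN v
    · rcases hv with rfl | ⟨m, rfl⟩
      · have h1 : sm gc⁻¹ (gc :: r) = 1 :: r := by simp [sm]
        rw [e4, s2, mul_inv_cancel, s1, sigsig _ (s3 _ _ hOr), h1, e3]
      · have h1 : sm gc⁻¹ (gc⁻¹ ^ m :: r) = gc⁻¹ ^ (m + 1) :: r := by
          simp only [sm]
          rw [← pow_succ']
        rw [e2, e6 _ (s5 r m hr), h1, e2]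
        simp [tau, sm]
    · have h1 : sm gc (1 :: v :: r) = gc :: v :: r := by simp [sm]
      rw [e5 v r hv, h1, e4]

end Pool.Agent.Helper484.HBA
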