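import Pool.Agent.Helper484.HBA.Defs
import Pool.Agent.Helper484.HBA.P_smlem
import Pool.Agent.Helper484.HBA.P_sigok
import Pool.Agent.Helper484.HBA.P_sigsig
import Pool.Agent.Helper484.HBA.P_sigrel

set_option autoImplicit false

namespace Pool.Agent.Helper484.HBA



/-- multiplication of the first entry, as a permutation -/
def i0V (v : V) : Equiv.Perm Om where
  toFun l := ⟨sm v l.1, smlem.2.2.1 v l.1 l.2⟩
  invFun l := ⟨sm v⁻¹ l.1, smlem.2.2.1 v⁻¹ l.1 l.2⟩
  left_inv l := by
    apply Subtype.ext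
    change sm v⁻¹ (sm v l.1) = l.1
    rw [smlem.2.1, inv_mul_cancel, smlem.1]
  right_inv l := by
    apply Subtype.ext
    change sm v (sm v⁻¹ l.1) = l.1
    rw [smlem.2.1, mul_inv_cancel, smlem.1]

/-- the homomorphism -/
def i0H : V →* Equiv.Perm Om :=
  MonoidHom.mk' i0V (by
    intro v w
    apply Equiv.ext
    intro l
    apply Subtype.ext
    change sm (v * w) l.1 = sm v (sm w l.1)
    rw [smlem.2.1])

/-- the involution -/
noncomputable def i0S : Equiv.Perm Om where
  toFun l := ⟨sig l.1, sigok l.1 l.2⟩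
  invFun l := ⟨sig l.1, sigok l.1 l.2⟩
  left_inv l := by
    apply Subtype.ext
    exact sigsig l.1 l.2
  right_inv l := by
    apply Subtype.ext
    exact sigsig l.1 l.2

/-- the empty list -/
def i0e : Om := ⟨[], by intro x hx; simp at hx⟩

/-- the list `[1]` -/
def i01 : Om := ⟨[1], by intro x hx; simp at hx⟩

theorem inst0 : ∃ (G : Type) (_ : Group G) (ι : V →* G) (s : G) (nf : G → List V),
    Function.Injective ι ∧ s * s = 1 ∧ s * ι gc * s = ι gc⁻¹ * s * ι gc⁻¹ ∧
    Subgroup.closure (Set.range ι ∪ {s}) = ⊤ ∧ nf 1 = [] ∧ (∀ g, Ok (nf g)) ∧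
    (∀ (v : V) (g : G), nf (ι v * g) = sm v (nf g)) ∧ (∀ g : G, nf (s * g) = sig (nf g)) ∧
    (∀ (v : V) (g : G), nf (g * ι v) = nf g) := by
  obtain ⟨k, hk⟩ : ∃ k : Set (Equiv.Perm Om), k = Set.range i0H ∪ {i0S} := ⟨_, rfl⟩
  have hV : ∀ v, i0H v ∈ Subgroup.closure k := fun v =>
    Subgroup.subset_closure (by rw [hk]; exact Or.inl ⟨v, rfl⟩)
  have hS : i0S ∈ Subgroup.closure k :=
    Subgroup.subset_closure (by rw [hk]; exact Or.inr rfl)
  refine ⟨Subgroup.closure k, inferInstance, i0H.codRestrict (Subgroup.closure k) hV, ⟨i0S, hS⟩,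
    fun g => (g.1 i0e).1, ?_, ?_, ?_, ?_, ?_, ?_, ?_, ?_, ?_⟩
  · intro v w h
    have h1 : i0H v = i0H w := congrArg Subtype.val h
    have h2 : i0V v i01 = i0V w i01 := by
      change (i0H v) i01 = (i0H w) i01
      rw [h1]
    have h3 : sm v [1] = sm w [1] := congrArg Subtype.val h2
    simpa [sm] using h3
  · apply Subtype.ext
    apply Equiv.ext
    intro l
    apply Subtype.ext
    exact sigsig l.1 l.2
  · apply Subtype.ext
    apply Equiv.ext
    intro l
    apply Subtype.ext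
    exact sigrel l.1 l.2
  · have h := Subgroup.closure_closure_coe_preimage (k := k)
    refine Eq.trans ?_ h
    congr 1
    ext x
    have hmem : (x : Equiv.Perm Om) ∈ k ↔ (x : Equiv.Perm Om) ∈ Set.range i0H ∪ {i0S} :=
      Set.ext_iff.1 hk x.1
    rw [Set.mem_preimage]
    refine Iff.trans ?_ hmem.symm
    constructor
    · rintro (⟨v, rfl⟩ | hx)
      · exact Or.inl ⟨v, rfl⟩
      · right
        rw [Set.mem_singleton_iff] at hx
        rw [hx]
        rfl
    · rintro (⟨v, hv⟩ | hx)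
      · exact Or.inl ⟨v, Subtype.ext hv⟩
      · right
        exact Subtype.ext hx
  · rfl
  · intro g
    exact (g.1 i0e).2
  · intro v g
    rfl
  · intro g
    rfl
  · intro v g
    rfl

end Pool.Agent.Helper484.HBA
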