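import Pool.Agent.Helper484.HBA.Defs

set_option autoImplicit false

namespace Pool.Agent.Helper484.HBA



private theorem rsm_AA (v : V) (l l' : List V) (h : AA l l') : AA (sm v l) (sm v l') := by
  obtain ⟨w, rfl⟩ := h
  cases l with
  | nil => exact ⟨v * w, rfl⟩
  | cons a l0 => exact ⟨w, rfl⟩

private theorem rsm_BB (v : V) (l l' : List V) (h : BB l l') : BB (sm v l) (sm v l') := by
  obtain ⟨L, u, k, rfl, rfl⟩ := h
  cases L with
  | nil =>
    refine ⟨[], v * u, k, rfl, ?_⟩
    show (v * (u * gc)) :: List.replicate k (gc * gc) = (v * u * gc) :: List.replicate k (gc * gc)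
    rw [mul_assoc]
  | cons a L0 => exact ⟨(v * a) :: L0, u, k, rfl, rfl⟩

theorem rsm (v : V) (l y : List V) (h : RR l y) (h1 : l ≠ []) : RR (sm v l) (sm v y) := by
  rcases h with h | h | h | h
  · exact Or.inl (rsm_AA v _ _ h)
  · exact Or.inr (Or.inl (rsm_AA v _ _ h))
  · exact Or.inr (Or.inr (Or.inl (rsm_BB v _ _ h)))
  · exact Or.inr (Or.inr (Or.inr (rsm_BB v _ _ h)))

end Pool.Agent.Helper484.HBA
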