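import Pool.Agent.Helper484.HBA.Defs
import Pool.Agent.Helper484.HBA.P_cinj
import Pool.Agent.Helper484.HBA.P_sigeq

set_option autoImplicit false

namespace Pool.Agent.Helper484.HBA



theorem rstep_tau (m : ℕ) : tau (m + 1) [] = gc :: List.replicate m (gc * gc) := by
  induction m with
  | zero => rfl
  | succ m ih =>
    change gc :: sm gc (tau (m + 1) []) = _
    rw [ih]
    rfl

theorem rstep_cons (x : V) {l y : List V} (h : RR l y) : RR (x :: l) (x :: y) := by
  rcases h with ⟨v, rfl⟩ | ⟨v, rfl⟩ | ⟨L, u, k, rfl, rfl⟩ | ⟨L, u, k, rfl, rfl⟩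
  · exact Or.inl ⟨v, rfl⟩
  · exact Or.inr (Or.inl ⟨v, rfl⟩)
  · exact Or.inr (Or.inr (Or.inl ⟨x :: L, u, k, rfl, rfl⟩))
  · exact Or.inr (Or.inr (Or.inr ⟨x :: L, u, k, rfl, rfl⟩))

theorem rstep (l y : List V) (hl : WW l) (h : RR l y) : RR (1 :: l) (sig y) := by
  obtain ⟨S0, S1, S2, S3, S4, S5⟩ := sigeq
  obtain ⟨c1, c2, c3⟩ := cinj
  have hgood : ∀ v y', y = v :: y' → ¬ NN v → RR (1 :: l) (sig y) := by
    intro v y' hy hv
    rw [hy, S4 v y' hv, ← hy]
    exact rstep_cons 1 h
  have hgc : sig [gc] = [gc⁻¹] := by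
    rw [S3]
    change sm gc⁻¹ (sig []) = _
    rw [S0]
    change [gc⁻¹ * 1] = _
    rw [mul_one]
  have hmem : ∀ x ∈ l, ¬ NN x := hl
  rcases id h with ⟨v, hy⟩ | ⟨v, hy⟩ | ⟨L, u, k, hl', hy⟩ | ⟨L, u, k, hy, hl'⟩
  · cases l with
    | cons a l' => exact hgood a (l' ++ [v]) hy (hmem a (by simp))
    | nil =>
      have hy' : y = [v] := hy
      by_cases hv : NN v
      · rcases hv with rfl | ⟨m, rfl⟩
        · rw [hy', hgc]
          exact Or.inr (Or.inr (Or.inr ⟨[], gc⁻¹, 0, rfl, by simp⟩))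
        · rw [hy', S1]
          cases m with
          | zero => exact Or.inr (Or.inl ⟨1, rfl⟩)
          | succ m =>
            rw [rstep_tau]
            exact Or.inr (Or.inr (Or.inl ⟨[], 1, m, rfl, by simp⟩))
      · exact hgood v [] hy' hv
  · cases y with
    | nil =>
      rw [S0]
      exact Or.inr (Or.inl ⟨v, by rw [hy]; rfl⟩)
    | cons a y' => exact hgood a y' rfl (hmem a (by rw [hy]; simp))
  · cases L with
    | nil =>
      refine hgood (u * gc) (List.replicate k (gc * gc)) (by rw [hy]; rfl) ?_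
      exact (c3 u (hmem u (by rw [hl']; simp))).2.2.2
    | cons a L' =>
      refine hgood a (L' ++ [u * gc] ++ List.replicate k (gc * gc)) (by rw [hy]; rfl) ?_
      exact hmem a (by rw [hl']; simp)
  · cases L with
    | nil =>
      have hy' : y = [u] := hy
      have hugc : ¬ NN (u * gc) := hmem _ (by rw [hl']; simp)
      by_cases hu : NN u
      · rcases hu with rfl | ⟨m, rfl⟩
        · rw [hy', hgc]
          refine Or.inr (Or.inr (Or.inr ⟨[], gc⁻¹, k + 1, rfl, ?_⟩))
          rw [hl', List.replicate_succ]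
          simp
        · exfalso
          apply hugc
          cases m with
          | zero => exact Or.inl (by simp)
          | succ m => exact Or.inr ⟨m, by rw [pow_succ]; group⟩
      · exact hgood u [] hy' hu
    | cons a L' =>
      refine hgood a (L' ++ [u]) (by rw [hy]; rfl) ?_
      exact hmem a (by rw [hl']; simp)

end Pool.Agent.Helper484.HBA
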