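import Pool.Agent.Helper484.HBA.Defs
import Pool.Agent.Helper484.HBA.P_sigeq

set_option autoImplicit false

namespace Pool.Agent.Helper484.HBA



theorem seltAux1 {G : Type} [Group G] (ι : V →* G) (s : G) (w : V) (l : List V) :
    ∃ v : V, ι w * elt ι s l = elt ι s (sm w l) * ι v := by
  cases l with
  | nil => exact ⟨w, by simp [elt, sm]⟩
  | cons x l => exact ⟨1, by simp [elt, sm, mul_assoc]⟩

theorem seltAux2 {G : Type} [Group G] (ι : V →* G) (s : G) (hs : s * s = 1)
    (hc : s * ι gc * s = ι gc⁻¹ * s * ι gc⁻¹) (m : ℕ) (r : List V) :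
    ∃ v : V, s * (ι (gc⁻¹ ^ m) * (s * elt ι s r)) = elt ι s (tau m r) * ι v := by
  have hsi : s⁻¹ = s := inv_eq_of_mul_eq_one_left hs
  have h2 : s * ι gc⁻¹ * s = ι gc * s * ι gc := by
    have h := congrArg (fun g => g⁻¹) hc
    simp only [mul_inv_rev, map_inv, inv_inv, hsi] at h
    rw [map_inv, mul_assoc, mul_assoc]
    exact h
  induction m with
  | zero =>
    refine ⟨1, ?_⟩
    rw [pow_zero, map_one, one_mul, ← mul_assoc, hs, one_mul, mul_one]
    rfl
  | succ m ih =>
    obtain ⟨v', hv'⟩ := ih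
    obtain ⟨w, hw⟩ := seltAux1 ι s gc (tau m r)
    refine ⟨w * v', ?_⟩
    have e1 : s * (ι (gc⁻¹ ^ (m + 1)) * (s * elt ι s r)) =
        (s * ι gc⁻¹ * s) * (s * (ι (gc⁻¹ ^ m) * (s * elt ι s r))) := by
      rw [pow_succ', map_mul]
      have : s * ι gc⁻¹ * s * (s * (ι (gc⁻¹ ^ m) * (s * elt ι s r))) =
          s * ι gc⁻¹ * (s * s) * (ι (gc⁻¹ ^ m) * (s * elt ι s r)) := by group
      rw [this, hs]
      group
    rw [e1, hv', h2]
    have e2 : ι gc * s * ι gc * (elt ι s (tau m r) * ι v') =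
        ι gc * s * (ι gc * elt ι s (tau m r)) * ι v' := by group
    rw [e2, hw, map_mul]
    show _ = ι gc * s * elt ι s (sm gc (tau m r)) * (ι w * ι v')
    group

theorem seltAux3 {G : Type} [Group G] (ι : V →* G) (s : G) (hs : s * s = 1)
    (hc : s * ι gc * s = ι gc⁻¹ * s * ι gc⁻¹) (n : ℕ) :
    ∀ l : List V, l.length ≤ n → ∃ v : V, s * elt ι s l = elt ι s (sig l) * ι v := by
  obtain ⟨q1, q2, _, q4, q5, _⟩ := sigeq
  induction n with
  | zero =>
    intro l hl
    have : l = [] := List.length_eq_zero_iff.1 (Nat.le_zero.1 hl)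
    subst this
    rw [q1]
    exact ⟨1, by simp [elt]⟩
  | succ n ih =>
    intro l hl
    cases l with
    | nil =>
      rw [q1]
      exact ⟨1, by simp [elt]⟩
    | cons v r =>
      by_cases hN : NN v
      · rcases hN with h | ⟨m, h⟩
        · subst h
          rw [q4]
          obtain ⟨w, hw⟩ := seltAux1 ι s gc⁻¹ r
          have hlen : (sm gc⁻¹ r).length ≤ n := by
            rw [sm_length]
            simpa using hl
          obtain ⟨w', hw'⟩ := ih _ hlen
          obtain ⟨w2, hw2⟩ := seltAux1 ι s gc⁻¹ (sig (sm gc⁻¹ r))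
          refine ⟨w2 * (w' * w), ?_⟩
          have e1 : s * elt ι s (gc :: r) = (s * ι gc * s) * elt ι s r := by
            show s * (ι gc * s * elt ι s r) = _
            group
          rw [e1, hc]
          have e2 : ι gc⁻¹ * s * ι gc⁻¹ * elt ι s r = ι gc⁻¹ * (s * (ι gc⁻¹ * elt ι s r)) := by
            simp only [mul_assoc]
          rw [e2, hw]
          have e3 : ι gc⁻¹ * (s * (elt ι s (sm gc⁻¹ r) * ι w)) =
              ι gc⁻¹ * ((s * elt ι s (sm gc⁻¹ r)) * ι w) := by
            simp only [mul_assoc]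
          rw [e3, hw']
          have e4 : ι gc⁻¹ * (elt ι s (sig (sm gc⁻¹ r)) * ι w' * ι w) =
              (ι gc⁻¹ * elt ι s (sig (sm gc⁻¹ r))) * (ι w' * ι w) := by
            simp only [mul_assoc]
          rw [e4, hw2, map_mul, map_mul]
          simp only [mul_assoc]
        · subst h
          rw [q2]
          obtain ⟨v', hv'⟩ := seltAux2 ι s hs hc m r
          refine ⟨v', ?_⟩
          rw [← hv']
          show s * (ι (gc⁻¹ ^ m) * s * elt ι s r) = _
          rw [mul_assoc (ι (gc⁻¹ ^ m))]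
      · rw [q5 v r hN]
        exact ⟨1, by simp [elt]⟩

theorem selt {G : Type} [Group G] (ι : V →* G) (s : G) (hs : s * s = 1)
    (hc : s * ι gc * s = ι gc⁻¹ * s * ι gc⁻¹) :
    (∀ (w : V) (l : List V), ∃ v : V, ι w * elt ι s l = elt ι s (sm w l) * ι v) ∧
    (∀ l : List V, ∃ v : V, s * elt ι s l = elt ι s (sig l) * ι v) := by
  exact ⟨fun w l => seltAux1 ι s w l, fun l => seltAux3 ι s hs hc l.length l le_rfl⟩

end Pool.Agent.Helper484.HBA
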