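import Pool.Agent.Helper484.HBA.Defs
import Pool.Agent.Helper484.HBA.P_sigeq
import Pool.Agent.Helper484.HBA.P_smlem
import Pool.Agent.Helper484.HBA.P_rstep
import Pool.Agent.Helper484.HBA.P_rsm
import Pool.Agent.Helper484.HBA.P_selt

set_option autoImplicit false

namespace Pool.Agent.Helper484.HBA



theorem inst1 {G : Type} [Group G] (ι : V →* G) (s : G) (nf : G → List V)
    (hs : s * s = 1) (hc : s * ι gc * s = ι gc⁻¹ * s * ι gc⁻¹)
    (hgen : Subgroup.closure (Set.range ι ∪ {s}) = ⊤) (h1 : nf 1 = []) (hok : ∀ g, Ok (nf g))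
    (hv : ∀ (v : V) (g : G), nf (ι v * g) = sm v (nf g)) (hsg : ∀ g : G, nf (s * g) = sig (nf g))
    (hr : ∀ (v : V) (g : G), nf (g * ι v) = nf g) :
    (∀ g : G, ∃ v : V, g = elt ι s (nf g) * ι v) ∧ (∀ g : G, nf g = [] ↔ g ∈ ι.range) ∧
      ∀ g : G, RR (nf g) (nf (g * s)) := by
  have hsinv : s⁻¹ = s := by
    rw [inv_eq_iff_mul_eq_one]; exact hs
  obtain ⟨se1, se2⟩ := selt ι s hs hc
  have stepι : ∀ (w : V) (g : G), (∃ v : V, g = elt ι s (nf g) * ι v) →
      ∃ v : V, ι w * g = elt ι s (nf (ι w * g)) * ι v := by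
    rintro w g ⟨v, hvg⟩
    obtain ⟨v', hv'⟩ := se1 w (nf g)
    refine ⟨v' * v, ?_⟩
    rw [hv w g, map_mul, ← mul_assoc, ← hv', mul_assoc, ← hvg]
  have steps : ∀ g : G, (∃ v : V, g = elt ι s (nf g) * ι v) →
      ∃ v : V, s * g = elt ι s (nf (s * g)) * ι v := by
    rintro g ⟨v, hvg⟩
    obtain ⟨v', hv'⟩ := se2 (nf g)
    refine ⟨v' * v, ?_⟩
    rw [hsg g, map_mul, ← mul_assoc, ← hv', mul_assoc, ← hvg]
  have h2 : ∀ g : G, ∃ v : V, g = elt ι s (nf g) * ι v := by
    intro g
    have hg : g ∈ Subgroup.closure (Set.range ι ∪ {s}) := by rw [hgen]; exact Subgroup.mem_top _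
    refine Subgroup.closure_induction_left
      (p := fun g _ => ∃ v : V, g = elt ι s (nf g) * ι v) ?_ ?_ ?_ hg
    · refine ⟨1, ?_⟩
      rw [h1, map_one, mul_one]
      rfl
    · rintro x (⟨w, rfl⟩ | hx) y _ hy
      · exact stepι w y hy
      · rw [Set.mem_singleton_iff.1 hx]
        exact steps y hy
    · rintro x (⟨w, rfl⟩ | hx) y _ hy
      · rw [← map_inv]
        exact stepι w⁻¹ y hy
      · rw [Set.mem_singleton_iff.1 hx, hsinv]
        exact steps y hy
  have hnfι : ∀ v : V, nf (ι v) = [] := by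
    intro v
    have := hv v 1
    rw [mul_one, h1] at this
    exact this
  obtain ⟨q1, q2, q3, q4, q5, q6⟩ := sigeq
  obtain ⟨p1, p2, p3, p4, p5, p6⟩ := smlem
  have hnfs : nf s = [1] := by
    have := hsg 1
    rw [mul_one, h1, q1] at this
    exact this
  have h3 : ∀ l : List V, Ok l → ∀ v : V, nf (elt ι s l * ι v) = l ∧
      RR l (nf (elt ι s l * ι v * s)) := by
    intro l
    induction l with
    | nil =>
      intro _ v
      have e1 : elt ι s [] * ι v = ι v := by show 1 * ι v = ι v; rw [one_mul]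
      rw [e1]
      refine ⟨hnfι v, ?_⟩
      rw [hv v s, hnfs]
      left
      exact ⟨v * 1, rfl⟩
    | cons v0 r ih =>
      intro hok' v
      have hW : WW r := (p6 v0 r).1 hok'
      have hOr : Ok r := fun x hx => hW x (List.mem_of_mem_tail hx)
      obtain ⟨i1, i2⟩ := ih hOr v
      have e1 : elt ι s (v0 :: r) * ι v = ι v0 * (s * (elt ι s r * ι v)) := by
        show ι v0 * s * elt ι s r * ι v = _
        simp only [mul_assoc]
      have e2 : elt ι s (v0 :: r) * ι v * s = ι v0 * (s * (elt ι s r * ι v * s)) := by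
        rw [e1]
        simp only [mul_assoc]
      have e3 : sm v0 (1 :: r) = v0 :: r := by
        show (v0 * 1) :: r = v0 :: r
        rw [mul_one]
      constructor
      · rw [e1, hv, hsg, i1, q6 r hW, e3]
      · rw [e2, hv, hsg]
        have h4 := rstep r _ hW i2
        have h5 := rsm v0 _ _ h4 (by simp)
        rw [e3] at h5
        exact h5
  refine ⟨h2, ?_, ?_⟩
  · intro g
    constructor
    · intro h
      obtain ⟨v, hvg⟩ := h2 g
      rw [h] at hvg
      refine ⟨v, ?_⟩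
      rw [hvg]
      show ι v = 1 * ι v
      rw [one_mul]
    · rintro ⟨v, rfl⟩
      exact hnfι v
  · intro g
    obtain ⟨v, hvg⟩ := h2 g
    have h5 := (h3 (nf g) (hok g) v).2
    rw [← hvg] at h5
    exact h5

end Pool.Agent.Helper484.HBA
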