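import Pool.Agent.Helper548.HB.Defs
import Pool.Agent.Helper484.HBA.P_sigeq
import Pool.Agent.Helper484.HBA.P_inst0
import Pool.Agent.Helper484.HBA.P_inst1

set_option autoImplicit false

namespace Pool.Agent.Helper484.HBA

theorem NN_zpow (v : V) (h : NN v) : ∃ j : ℤ, j ≤ 1 ∧ v = gc ^ j := by
  rcases h with h | ⟨m, h⟩
  · exact ⟨1, le_rfl, by rw [h, zpow_one]⟩
  · refine ⟨-(m : ℤ), by omega, ?_⟩
    rw [h, zpow_neg, zpow_natCast, inv_pow]

/-- the amalgam of V and PSL(2,Z) along c exists, with its normal forms -/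
theorem exists_gdata : Nonempty Pool.Agent.Helper548.HB.GData := by
  obtain ⟨G, iG, ι, s, nf, hinj, hs, hc, hgen, h1, hok, hv, hsg, hr⟩ := inst0
  obtain ⟨he, hm, hR⟩ := inst1 ι s nf hs hc hgen h1 hok hv hsg hr
  have hnfs : nf s = [1] := by
    have := hsg 1
    rw [mul_one, h1, sigeq.1] at this
    exact this
  have hne : ∀ g : G, g ∉ ι.range → ∃ (w : V) (l : List V), nf g = w :: l := by
    intro g hg
    rcases hx : nf g with _ | ⟨w, l⟩
    · exact absurd ((hm g).1 hx) hg
    · exact ⟨w, l, rfl⟩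
  refine ⟨{ G := G, grp := iG, ι := ι, s := s, head := fun g => (nf g).headD 1, ι_inj := hinj, s_mul_s := hs, scs := hc, gen := hgen, s_not_mem := ?_, head_s := ?_, head_left := ?_, head_right := ?_, head_step := ?_, head_s_mul := ?_ }⟩
  · intro h
    have := (hm s).2 h
    rw [hnfs] at this
    exact absurd this (by simp)
  · show (nf s).headD 1 = 1
    rw [hnfs]; rfl
  · intro v g hg
    obtain ⟨w, l, hw⟩ := hne g hg
    show (nf (ι v * g)).headD 1 = v * (nf g).headD 1
    rw [hv, hw]; rfl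
  · intro v g hg
    show (nf (g * ι v)).headD 1 = (nf g).headD 1
    rw [hr]
  · intro g hg hgs
    obtain ⟨w, l, hw⟩ := hne g hg
    obtain ⟨w', l', hw'⟩ := hne _ hgs
    show (nf (g * s)).headD 1 = (nf g).headD 1 ∨
      ((nf (g * s)).headD 1 = (nf g).headD 1 * gc ∧ ∃ v : V, g = ι ((nf g).headD 1) * s * ι v) ∨
      ((nf g).headD 1 = (nf (g * s)).headD 1 * gc ∧
        ∃ v : V, g * s = ι ((nf (g * s)).headD 1) * s * ι v)
    rcases hR g with ⟨v, h⟩ | ⟨v, h⟩ | ⟨L, u, k, h, h'⟩ | ⟨L, u, k, h, h'⟩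
    · left
      rw [h, hw]; rfl
    · left
      rw [h, hw']; rfl
    · rcases L with _ | ⟨x, L⟩
      · right; left
        have h2 : nf g = [u] := by rw [h]; rfl
        refine ⟨?_, ?_⟩
        · rw [h', h2]; rfl
        · obtain ⟨v, hv'⟩ := he g
          rw [h2] at hv'
          refine ⟨v, ?_⟩
          rw [h2]
          simpa [elt] using hv'
      · left
        rw [h, h']; rfl
    · rcases L with _ | ⟨x, L⟩
      · right; right
        have h2 : nf (g * s) = [u] := by rw [h]; rfl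
        refine ⟨?_, ?_⟩
        · rw [h', h2]; rfl
        · obtain ⟨v, hv'⟩ := he (g * s)
          rw [h2] at hv'
          refine ⟨v, ?_⟩
          rw [h2]
          simpa [elt] using hv'
      · left
        rw [h, h']; rfl
  · intro g hg hj
    obtain ⟨w, l, hw⟩ := hne g hg
    show (nf (s * g)).headD 1 = 1
    have hj' : ∀ j : ℤ, j ≤ 1 → w ≠ gc ^ j := by
      intro j hj1 hwj
      apply hj j hj1
      show (nf g).headD 1 = gc ^ j
      rw [hw]; exact hwj
    have hNN : ¬ NN w := by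
      intro h
      obtain ⟨j, hj1, h2⟩ := NN_zpow w h
      exact hj' j hj1 h2
    rw [hsg, hw, sigeq.2.2.2.2.1 w l hNN]; rfl

end Pool.Agent.Helper484.HBA
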